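import Mathlib

set_option autoImplicit false

namespace Pool.Agent.Results.MP_33f3d1_co.Disproof

/-- `Y` is a relating retract of the poset `X`. -/
def IsRelRetract {X : Type} [PartialOrder X] (Y : Set X) : Prop :=
  ∃ r : X → X, Monotone r ∧ (∀ x, r x ∈ Y) ∧ (∀ y ∈ Y, r y = y) ∧ ∀ x, x ∉ Y → x ≤ r x ∨ r x ≤ x

/-- `Y` is a minimal relating retract of `X`. -/
def IsMinRelRetract {X : Type} [PartialOrder X] (Y : Set X) : Prop :=
  IsRelRetract Y ∧ ∀ Z : Set X, Z ⊂ Y → Z.Nonempty → ¬ IsRelRetract Z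

abbrev X5 : Type := {p : Fin 2 × Fin 3 // p ≠ (1, 2)}

def a0 : X5 := ⟨(0, 0), by decide⟩
def a2 : X5 := ⟨(0, 1), by decide⟩
def a4 : X5 := ⟨(1, 1), by decide⟩
def r2 (x : X5) : X5 := if x.1.1 = 0 then a2 else a4

theorem result : ∃ (X : Type) (_ : Finite X) (_ : PartialOrder X) (Y Z : Set X),
    IsMinRelRetract Y ∧ IsMinRelRetract Z ∧ IsEmpty (Y ≃o Z) := by
  refine ⟨X5, inferInstance, inferInstance, {a0}, {a2, a4}, ⟨⟨fun _ => a0, monotone_const,
    fun _ => rfl, fun y hy => hy.symm, fun x _ => Or.inr (by revert x; decide)⟩, ?_⟩,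
    ⟨⟨r2, ?_, ?_, ?_, ?_⟩, ?_⟩, ⟨fun e => ?_⟩⟩
  · intro Z hZ hne
    rw [Set.ssubset_singleton_iff] at hZ
    exact absurd hne (by simp [hZ])
  · intro x y; revert x y; decide
  · intro x; simp only [Set.mem_insert_iff, Set.mem_singleton_iff]; revert x; decide
  · intro x; simp only [Set.mem_insert_iff, Set.mem_singleton_iff]; revert x; decide
  · intro x _; revert x; decide
  · rintro Z hZ - ⟨r, -, h1, -, h2⟩
    have n1 : (⟨(1, 0), by decide⟩ : X5) ∉ Z := fun h => by
      have := hZ.1 h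
      simp only [Set.mem_insert_iff, Set.mem_singleton_iff] at this
      revert this; decide
    have n3 : (⟨(0, 2), by decide⟩ : X5) ∉ Z := fun h => by
      have := hZ.1 h
      simp only [Set.mem_insert_iff, Set.mem_singleton_iff] at this
      revert this; decide
    apply hZ.2
    rintro x (rfl | rfl)
    · have a := h2 _ n3
      have b := h1 ⟨(0, 2), by decide⟩
      rcases hZ.1 b with h | h
      · rwa [h] at b
      · rw [Set.mem_singleton_iff.1 h] at a; exact absurd a (by decide)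
    · have a := h2 _ n1
      have b := h1 ⟨(1, 0), by decide⟩
      rcases hZ.1 b with h | h
      · rw [h] at a; exact absurd a (by decide)
      · rwa [Set.mem_singleton_iff.1 h] at b
  · have : e.symm ⟨a2, Or.inl rfl⟩ = e.symm ⟨a4, Or.inr rfl⟩ := Subsingleton.elim _ _
    have := congrArg Subtype.val (e.symm.injective this)
    revert this; decide

end Pool.Agent.Results.MP_33f3d1_co.Disproof
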